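import Pool.Agent.Lib.MP_36b0a5_gt.PlMain

/-!
# Logarithmic Minkowski problem in the plane: existence beyond subspace concentration

Let the normals `u_p = (0, 1)` and `u_q = (0, -1)` be antipodal and suppose that the subspace
concentration condition FAILS for the line through them: `2 (V_p + V_q) > V_1 + ... + V_N`.
We prove that the data is still realised by a polygon as soon as `V_p` is small enough, with an
explicit bound which depends only on the slopes of the other normals.
-/

set_option autoImplicit false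

open Pool.Agent.LogMinkowski

namespace Pool.Agent.Results.MP_36b0a5_gt.BeyondConcentration

/-- The slope `v_1 / |v_0|` of a vector `v = (v_0, v_1)` of the plane. -/
noncomputable def slope (v : E 2) : ℝ := v 1 / |v 0|

/-- A weight on the normals: positive on those which are not vertical, with sum one over the
normals which point to the right and with sum one over those which point to the left. -/
structure IsWeight {N : ℕ} (u : Fin N → E 2) (a : Fin N → ℝ) : Prop where
  pos : ∀ i, u i 0 ≠ 0 → 0 < a i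
  right : ∑ i with 0 < u i 0, a i = 1
  left : ∑ i with u i 0 < 0, a i = 1

/-- `B(a) = ∑ a_i slope(u_i)`, over the normals which are not vertical. -/
noncomputable def wB {N : ℕ} (u : Fin N → E 2) (a : Fin N → ℝ) : ℝ :=
  ∑ i with u i 0 ≠ 0, a i * slope (u i)

/-- `C(a) = 1/2 ∑ a_i a_j |slope(u_i) - slope(u_j)|`, over the pairs of normals which point both to
the right or both to the left. -/
noncomputable def wC {N : ℕ} (u : Fin N → E 2) (a : Fin N → ℝ) : ℝ :=
  (∑ i, ∑ j with 0 < u i 0 * u j 0, a i * a j * |slope (u i) - slope (u j)|) / 2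

/-- `Φ(a) = (2 (V_p + V_q) - ∑ V_i) log B(a) + 2 ∑ V_i log a_i`, the last sum over the normals
which are not vertical. -/
noncomputable def wPhi {N : ℕ} (u : Fin N → E 2) (V : Fin N → ℝ) (p q : Fin N)
    (a : Fin N → ℝ) : ℝ :=
  (2 * (V p + V q) - ∑ i, V i) * Real.log (wB u a) +
    2 * ∑ i with u i 0 ≠ 0, V i * Real.log (a i)

section aux

variable {N : ℕ}

theorem sd_eq (u : Fin N → E 2) : sd u = Finset.univ.filter fun i => u i 0 ≠ 0 := by
  ext i
  rw [mem_sd, Finset.mem_filter]
  exact ⟨fun h => ⟨Finset.mem_univ _, h⟩, fun h => h.2⟩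

theorem adm_iff (u : Fin N → E 2) (a : Fin N → ℝ) : Adm u a ↔ IsWeight u a :=
  ⟨fun h => ⟨fun i hi => h.pos i (mem_sd.2 hi), h.sumR, h.sumL⟩,
    fun h => ⟨fun i hi => h.pos i (mem_sd.1 hi), h.right, h.left⟩⟩

theorem wB_eq (u : Fin N → E 2) (a : Fin N → ℝ) : wB u a = bsum u a := by
  rw [wB, bsum, ← sum_sd, sd_eq]
  rfl

theorem wC_eq (u : Fin N → E 2) (a : Fin N → ℝ) : wC u a = csum u a := by
  rw [wC, csum]
  congr 1
  have h0 : ∀ i ∉ sd u,
      ∑ j with 0 < u i 0 * u j 0, a i * a j * |slope (u i) - slope (u j)| = 0 := by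
    intro i hi
    rw [mem_sd, not_not] at hi
    refine Finset.sum_eq_zero fun j hj => ?_
    rw [Finset.mem_filter, hi, zero_mul] at hj
    exact absurd hj.2 (lt_irrefl _)
  rw [← Finset.sum_subset (Finset.subset_univ (sd u)) fun i _ hi => h0 i hi, sum_sd]
  congr 1
  · refine Finset.sum_congr rfl fun i hi => ?_
    rw [sD, Finset.mul_sum]
    refine Finset.sum_congr ?_ fun j _ => ?_
    · ext j
      rw [Finset.mem_filter, mem_rt, mul_pos_iff_of_pos_left (mem_rt.1 hi)]
      exact ⟨fun h => h.2, fun h => ⟨Finset.mem_univ _, h⟩⟩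
    · rw [slo, slo, slope, slope]
      ring
  · refine Finset.sum_congr rfl fun i hi => ?_
    rw [sD, Finset.mul_sum]
    refine Finset.sum_congr ?_ fun j _ => ?_
    · ext j
      rw [Finset.mem_filter, mem_lf, mul_pos_iff]
      have h1 := mem_lf.1 hi
      constructor
      · rintro ⟨_, h | h⟩
        · exact absurd h.1 h1.le.not_gt
        · exact h.2
      · exact fun h => ⟨Finset.mem_univ _, Or.inr ⟨h1, h⟩⟩
    · rw [slo, slo, slope, slope]
      ring

theorem wPhi_eq (u : Fin N → E 2) (V : Fin N → ℝ) (p q : Fin N) (a : Fin N → ℝ) :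
    wPhi u V p q a = (2 * (V p + V q) - ∑ i, V i) * Real.log (bsum u a) +
      ∑ i ∈ sd u, 2 * V i * Real.log (a i) := by
  rw [wPhi, wB_eq, ← sd_eq, Finset.mul_sum]
  congr 1
  exact Finset.sum_congr rfl fun i _ => by ring

theorem side_of (u : Fin N → E 2) (hu : ∀ i, ‖u i‖ = 1) (hinj : Function.Injective u)
    (p q : Fin N) (hp : u p 0 = 0 ∧ u p 1 = 1) (hq : u q 0 = 0 ∧ u q 1 = -1) (i : Fin N)
    (hip : i ≠ p) (hiq : i ≠ q) : u i 0 ≠ 0 := by
  intro h0
  have h1 : u i 0 ^ 2 + u i 1 ^ 2 = 1 := by rw [← norm_two_sq, hu]; norm_num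
  have h2 : (u i 1 - 1) * (u i 1 + 1) = 0 := by rw [h0] at h1; linarith
  rcases mul_eq_zero.1 h2 with h3 | h3
  · refine hip (hinj ?_)
    ext k
    fin_cases k
    · simpa [hp.1] using h0
    · simp [hp.2]; linarith
  · refine hiq (hinj ?_)
    ext k
    fin_cases k
    · simpa [hq.1] using h0
    · simp [hq.2]; linarith

end aux

/-- Let `u_1, ..., u_N` be distinct unit vectors of the plane with `u_p = (0, 1)` and
`u_q = (0, -1)`, let `V_1, ..., V_N > 0` and `T = V_1 + ... + V_N`, and suppose that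
`κ = 2 (V_p + V_q) - T` is positive, so that the subspace concentration condition fails.

* If some weight `a` with `B(a) > 0` maximises `Φ` among such weights, if `C(a) ≤ ρ B(a)` with
  `0 ≤ ρ < 1` and `2 √V_p + √(κ (1 + ρ)) ≤ √(T (1 - ρ))`, then the data is realised.
* In particular: if there are normals on both sides, the right ones with slopes in `[mR, MR]`, the
  left ones with slopes in `[mL, ML]`, where `mR + mL > 0`, and if
  `√(2 (1 + r) V_p) + √κ ≤ √(r T)` with `r = √((mR + mL) / (MR + ML))`, then the data is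
  realised. -/
theorem result {N : ℕ} (u : Fin N → E 2) (hu : ∀ i, ‖u i‖ = 1) (hinj : Function.Injective u)
    (p q : Fin N) (hp : u p 0 = 0 ∧ u p 1 = 1) (hq : u q 0 = 0 ∧ u q 1 = -1)
    (V : Fin N → ℝ) (hV : ∀ i, 0 < V i) (hwall : ∑ i, V i < 2 * (V p + V q)) :
    (∀ (ρ : ℝ) (a : Fin N → ℝ), 0 ≤ ρ → ρ < 1 → IsWeight u a → 0 < wB u a →
      (∀ a', IsWeight u a' → 0 < wB u a' → wPhi u V p q a' ≤ wPhi u V p q a) →
      wC u a ≤ ρ * wB u a →
      2 * √(V p) + √((2 * (V p + V q) - ∑ i, V i) * (1 + ρ)) ≤ √((∑ i, V i) * (1 - ρ)) →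
      ∃ P : Set (E 2), Realises u V P) ∧
    (∀ mR MR mL ML : ℝ, (∃ i, 0 < u i 0) → (∃ i, u i 0 < 0) →
      (∀ i, 0 < u i 0 → mR ≤ slope (u i) ∧ slope (u i) ≤ MR) →
      (∀ i, u i 0 < 0 → mL ≤ slope (u i) ∧ slope (u i) ≤ ML) → 0 < mR + mL →
      √(2 * (1 + √((mR + mL) / (MR + ML))) * V p) + √(2 * (V p + V q) - ∑ i, V i) ≤
        √(√((mR + mL) / (MR + ML)) * ∑ i, V i) →
      ∃ P : Set (E 2), Realises u V P) := by
  have hside := side_of u hu hinj p q hp hq
  constructor
  · intro ρ a hρ0 hρ1 ha hB hmax hC h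
    rw [← adm_iff] at ha
    rw [wB_eq] at hB
    rw [wB_eq, wC_eq] at hC
    refine realised_general u hu hinj p q hp.1 hp.2 hq.1 hq.2 hside hV hwall hρ0 hρ1 h ha hB ?_ hC
    intro a' ha' hB'
    have h1 := hmax a' ((adm_iff u a').1 ha') (by rw [wB_eq]; exact hB')
    rw [wPhi_eq, wPhi_eq] at h1
    exact h1
  · intro mR MR mL ML hr hl hR hL hm h
    exact realised_explicit u hu hinj p q hp.1 hp.2 hq.1 hq.2 hside hr hl hV hwall hR hL hm h

end Pool.Agent.Results.MP_36b0a5_gt.BeyondConcentration
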