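import Pool.Agent.Lib.NP2.Final
import Pool.Agent.Lib.NP2.Hpoly
import Pool.Agent.Lib.NP2.Cone
import Pool.Agent.Lib.NP2.Pos
import Pool.Agent.Lib.NP2.Mod
import Pool.Agent.Lib.NP2.Mod0
import Pool.Agent.Lib.NP2.Chart
import Pool.Agent.Lib.NP2.Vol
import Pool.Agent.Lib.NP2.Solve
import Pool.Agent.Lib.NP2.Face
import Pool.Agent.Lib.NP2.Fwd
import Pool.Agent.Lib.NP2.Bwd

/-!
# MP_36b0a5_gt: the logarithmic Minkowski problem for `n + 2` facets with an essential subspace

The definitions used by the statement are in `Pool/Agent/Lib/MP_36b0a5_gt/Polytope.lean` (`E`,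
`face`, `IsPolytope`, `IsFacetNormal`, `coneVolume`, `Realises`), `Pool/Agent/Lib/NP2/Props.lean`
(`pp`, `Sx`, `aff`, `Mom`) and `Pool/Agent/Lib/NP2/Final.lean` (`MomS`).
-/

set_option autoImplicit false

open MeasureTheory Set Module
open Pool.Agent.LogMinkowski

namespace Pool.Agent.Results.MP_36b0a5_gt.NPlusTwo

open Pool.Agent.NP2

/-- Let `u i` be `n + 2` distinct unit vectors which span `ℝ ^ n`, with `∑ c i • u i = 0`, all
`c i > 0`, and `∑ a i • u i = 0`, all `a i ≥ 0`, where the set `S = {i | a i > 0}` is nonempty and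
the `u i` with `i ∈ S` do not span `ℝ ^ n`; let `q + 1` be the number of the indices outside `S`.
For `V i > 0` the data `(V; u)` is realised by a polytope if and only if there is a real number `C`,
greater than at least two of the `c i / a i` with `i ∈ S`, such that with `s i = C - c i / a i`
`∑_{j ∉ S} V j = q * M(q - 1, S) * ∑_{i ∈ S} V i * s i / M(q, S \ {i})`,
where `M(q, S)` is the integral of the `q`-th power of the positive part of the affine function with
the values `s i`, `i ∈ S`, at the vertices of the standard simplex of `ℝ ^ (|S| - 1)`. -/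
theorem result {n q : ℕ} (u : Fin (n + 2) → E n) (hunit : ∀ i, ‖u i‖ = 1)
    (hinj : Function.Injective u) (hspan : Submodule.span ℝ (range u) = ⊤)
    (c a V : Fin (n + 2) → ℝ) (hc : ∀ i, 0 < c i) (hcu : ∑ i, c i • u i = 0)
    (ha : ∀ i, 0 ≤ a i) (hne : ∃ i, 0 < a i) (hau : ∑ i, a i • u i = 0)
    (hS : Submodule.span ℝ (u '' {i | 0 < a i}) ≠ ⊤)
    (hq : (Finset.univ.filter fun i => a i = 0).card = q + 1) (hV : ∀ i, 0 < V i) :
    (∃ P, Realises u V P) ↔ ∃ C : ℝ,
      (∃ i j, i ≠ j ∧ 0 < a i ∧ 0 < a j ∧ c i / a i < C ∧ c j / a j < C) ∧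
      ∑ j with a j = 0, V j =
        q * MomS (q - 1) (Finset.univ.filter fun i => 0 < a i) (fun i => C - c i / a i) *
          ∑ i with 0 < a i, V i * (C - c i / a i) /
            MomS q ((Finset.univ.filter fun i => 0 < a i).erase i) (fun i => C - c i / a i) :=
  have hv : VOL := vol chart (modI cone) (modJ cone) (modI0 (modI cone)) (modJ0 (modJ cone))
  final (fwd hv posB) (bwd hpoly (solve posA) hv (face_pts chart pts)) u hunit hinj hspan c a V hc
    hcu ha hne hau hS hq hV

end Pool.Agent.Results.MP_36b0a5_gt.NPlusTwo
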