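import Pool.Agent.Lib.MP_36b0a5_gt.PlPentIff
import Pool.Agent.Lib.MP_36b0a5_gt.PlIso

/-!
# The logarithmic Minkowski problem for pentagons

Five normals in the plane, `u_0 = (0, 1)` and `u_1 = (0, -1)` antipodal, `u_2` and `u_3` to the
right, `u_4` to the left.  We determine exactly when the data is realised if
`2 (V_0 + V_1) ≥ V_0 + ... + V_4`, that is when the (strict) subspace concentration condition
fails for the line through `u_0` and `u_1`.
-/

set_option autoImplicit false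

open Pool.Agent.LogMinkowski

namespace Pool.Agent.Results.MP_36b0a5_gt.PentagonCriterion

/-- The slope `v_1 / |v_0|` of a vector `v = (v_0, v_1)` of the plane. -/
noncomputable def slope (v : E 2) : ℝ := v 1 / |v 0|

/-- The criterion.  With `B = τ + δ z` and `s = (κ / w + δ z (1 - z)) / B`: on the curve
`w δ (δ z^2 + 2 τ z - τ) = 2 B (l / (1 - z) - m / z) - δ κ` there is a point `(z, w)` with
`0 < z < 1`, `0 < w`, `0 < B`, `s < 1` and `4 t ≤ (1 - s) (2 (t + b) - w (1 + s) B)`. -/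
def Criterion (κ δ τ t b l m : ℝ) : Prop :=
  ∃ z w : ℝ, 0 < z ∧ z < 1 ∧ 0 < w ∧ 0 < τ + δ * z ∧
    w * δ * (δ * z ^ 2 + 2 * τ * z - τ) = 2 * (τ + δ * z) * (l / (1 - z) - m / z) - δ * κ ∧
    (κ / w + δ * z * (1 - z)) / (τ + δ * z) < 1 ∧
    4 * t ≤ (1 - (κ / w + δ * z * (1 - z)) / (τ + δ * z)) *
      (2 * (t + b) - w * (1 + (κ / w + δ * z * (1 - z)) / (τ + δ * z)) * (τ + δ * z))

theorem criterion_iff (κ δ τ t b l m : ℝ) :
    Criterion κ δ τ t b l m ↔ PentCrit κ δ τ (t + b) (4 * t) l m := by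
  have key : ∀ z w : ℝ, 0 < w → 0 < τ + δ * z →
      2 * (t + b) - w * (1 + (κ / w + δ * z * (1 - z)) / (τ + δ * z)) * (τ + δ * z) =
        2 * (t + b) - w * (τ + δ * z) - κ - w * (δ * (z * (1 - z))) := by
    intro z w hw hB
    field_simp
    ring
  constructor
  · rintro ⟨z, w, h1, h2, h3, h4, h5, h6, h7⟩
    rw [key z w h3 h4, mul_assoc δ] at h7
    rw [mul_assoc δ] at h6
    exact ⟨z, w, h1, h2, h3, h4, h5, by linarith, h7⟩
  · rintro ⟨z, w, h1, h2, h3, h4, h5, h6, h7⟩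
    refine ⟨z, w, h1, h2, h3, h4, h5, ?_, ?_⟩
    · rw [mul_assoc δ]; linarith
    · rw [key z w h3 h4, mul_assoc δ]; exact h7

/-- The reflection `(x_0, x_1) ↦ (x_0, -x_1)`. -/
noncomputable def flip : E 2 ≃ₗᵢ[ℝ] E 2 :=
  LinearIsometryEquiv.piLpCongrRight 2
    (fun i : Fin 2 => if i = 0 then LinearIsometryEquiv.refl ℝ ℝ else LinearIsometryEquiv.neg ℝ)

theorem flip_zero (x : E 2) : flip x 0 = x 0 := by
  simp [flip, LinearIsometryEquiv.piLpCongrRight_apply]

theorem flip_one (x : E 2) : flip x 1 = -x 1 := by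
  simp [flip, LinearIsometryEquiv.piLpCongrRight_apply]

theorem flip_flip (x : E 2) : flip (flip x) = x := by
  ext i
  fin_cases i
  · change flip (flip x) 0 = x 0
    rw [flip_zero, flip_zero]
  · change flip (flip x) 1 = x 1
    rw [flip_one, flip_one, neg_neg]

/-- The renaming `0 ↔ 1`, `2 ↔ 3`. -/
def ren : Equiv.Perm (Fin 5) := Equiv.swap 0 1 * Equiv.swap 2 3

theorem ren0 : ren 0 = 1 := by decide
theorem ren1 : ren 1 = 0 := by decide
theorem ren2 : ren 2 = 3 := by decide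
theorem ren3 : ren 3 = 2 := by decide
theorem ren4 : ren 4 = 4 := by decide
theorem ren_ren (i : Fin 5) : ren (ren i) = i := by revert i; decide

theorem flip_iff (u : Fin 5 → E 2) (V : Fin 5 → ℝ) :
    (∃ P : Set (E 2), Realises u V P) ↔
      ∃ P : Set (E 2), Realises (fun i => flip (u (ren i))) (fun i => V (ren i)) P := by
  constructor
  · rintro ⟨P, hP⟩
    exact ⟨_, hP.map flip ren⟩
  · rintro ⟨P, hP⟩
    have h := hP.map flip ren
    simp only [ren_ren, flip_flip] at h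
    exact ⟨_, h⟩

/-- **The criterion for pentagons.**  Let `u_0 = (0, 1)`, `u_1 = (0, -1)`, let `u_2`, `u_3` point
to the right and `u_4` to the left, `slope u_2 < slope u_3`, and suppose
`κ = 2 (V_0 + V_1) - (V_0 + ... + V_4) ≥ 0`.  With `δ = slope u_3 - slope u_2`, the data is
realised if and only if the criterion holds for `τ = slope u_2 + slope u_4` and
`(V_0, V_1, V_2, V_3)`, or for `τ = -(slope u_3 + slope u_4)` and `(V_1, V_0, V_3, V_2)` (the
reflected data). -/
theorem result (u : Fin 5 → E 2) (hu : ∀ i, ‖u i‖ = 1) (h0 : u 0 0 = 0 ∧ u 0 1 = 1)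
    (h1 : u 1 0 = 0 ∧ u 1 1 = -1) (h2 : 0 < u 2 0) (h3 : 0 < u 3 0) (h4 : u 4 0 < 0)
    (hs : slope (u 2) < slope (u 3)) (V : Fin 5 → ℝ) (hV : ∀ i, 0 < V i)
    (hwall : ∑ i, V i ≤ 2 * (V 0 + V 1)) :
    (∃ P : Set (E 2), Realises u V P) ↔
      Criterion (2 * (V 0 + V 1) - ∑ i, V i) (slope (u 3) - slope (u 2))
          (slope (u 2) + slope (u 4)) (V 0) (V 1) (V 2) (V 3) ∨
        Criterion (2 * (V 0 + V 1) - ∑ i, V i) (slope (u 3) - slope (u 2))
          (-(slope (u 3) + slope (u 4))) (V 1) (V 0) (V 3) (V 2) := by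
  have hκ : 0 ≤ 2 * (V 0 + V 1) - ∑ i, V i := by linarith
  rw [criterion_iff, criterion_iff]
  -- the reflected data
  set u' : Fin 5 → E 2 := fun i => flip (u (ren i)) with hu'
  set V' : Fin 5 → ℝ := fun i => V (ren i) with hV'
  have v0 : V' 0 = V 1 := by simp only [hV', ren0]
  have v1 : V' 1 = V 0 := by simp only [hV', ren1]
  have v2 : V' 2 = V 3 := by simp only [hV', ren2]
  have v3 : V' 3 = V 2 := by simp only [hV', ren3]
  have w0 : u' 0 = flip (u 1) := by simp only [hu', ren0]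
  have w1 : u' 1 = flip (u 0) := by simp only [hu', ren1]
  have w2 : u' 2 = flip (u 3) := by simp only [hu', ren2]
  have w3 : u' 3 = flip (u 2) := by simp only [hu', ren3]
  have w4 : u' 4 = flip (u 4) := by simp only [hu', ren4]
  have s2 : slo u' 2 = -slope (u 3) := by
    rw [slo, w2, flip_zero, flip_one, slope, neg_div]
  have s3 : slo u' 3 = -slope (u 2) := by
    rw [slo, w3, flip_zero, flip_one, slope, neg_div]
  have s4 : slo u' 4 = -slope (u 4) := by
    rw [slo, w4, flip_zero, flip_one, slope, neg_div]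
  have hV'p : ∀ i, 0 < V' i := fun i => hV (ren i)
  have hsum : ∑ i, V' i = ∑ i, V i := Equiv.sum_comp ren V
  have hκ' : 2 * (V' 0 + V' 1) - ∑ i, V' i = 2 * (V 0 + V 1) - ∑ i, V i := by
    rw [hsum, v0, v1]; ring
  have a00 : u' 0 0 = 0 := by rw [w0, flip_zero, h1.1]
  have a01 : u' 0 1 = 1 := by rw [w0, flip_one, h1.2, neg_neg]
  have a10 : u' 1 0 = 0 := by rw [w1, flip_zero, h0.1]
  have a11 : u' 1 1 = -1 := by rw [w1, flip_one, h0.2]
  have a2 : 0 < u' 2 0 := by rw [w2, flip_zero]; exact h3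
  have a3 : 0 < u' 3 0 := by rw [w3, flip_zero]; exact h2
  have a4 : u' 4 0 < 0 := by rw [w4, flip_zero]; exact h4
  have as : slo u' 2 < slo u' 3 := by rw [s2, s3]; linarith
  have au : ∀ i, ‖u' i‖ = 1 := fun i => by
    simp only [hu']
    rw [LinearIsometryEquiv.norm_map]
    exact hu _
  have hcrit' : PentCrit (2 * (V' 0 + V' 1) - ∑ i, V' i) (slo u' 3 - slo u' 2)
      (slo u' 2 + slo u' 4) (V' 0 + V' 1) (4 * V' 0) (V' 2) (V' 3) ↔
      PentCrit (2 * (V 0 + V 1) - ∑ i, V i) (slope (u 3) - slope (u 2))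
        (-(slope (u 3) + slope (u 4))) (V 1 + V 0) (4 * V 1) (V 3) (V 2) := by
    rw [hκ', s2, s3, s4, v0, v1, v2, v3,
      show -slope (u 2) - -slope (u 3) = slope (u 3) - slope (u 2) by ring,
      show -slope (u 3) + -slope (u 4) = -(slope (u 3) + slope (u 4)) by ring]
  constructor
  · intro hP
    rcases le_total (V 0) (V 1) with hle | hle
    · left
      obtain ⟨P, hP⟩ := hP
      exact pent_only h0.1 h0.2 h1.1 h1.2 h2 h3 h4 hs hV hP hκ hle
    · right
      obtain ⟨P, hP⟩ := (flip_iff u V).1 hP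
      rw [← hcrit']
      exact pent_only a00 a01 a10 a11 a2 a3 a4 as hV'p hP (by rw [hκ']; exact hκ)
        (by rw [v0, v1]; exact hle)
  · rintro (h | h)
    · exact pent_if hu h0.1 h0.2 h1.1 h1.2 h2 h3 h4 hs hV hκ h
    · rw [flip_iff]
      rw [← hcrit'] at h
      exact pent_if au a00 a01 a10 a11 a2 a3 a4 as hV'p (by rw [hκ']; exact hκ) h

end Pool.Agent.Results.MP_36b0a5_gt.PentagonCriterion
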