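import Pool.Agent.Lib.MP_36b0a5_gt.Sharp

/-!
# Logarithmic Minkowski problem: the sharp necessary condition on positively dependent normals

If the data `(V_1, ..., V_N; u_1, ..., u_N)` is realised by a polytope in `ℝ^n` and the normals
`u_i`, `i ∈ I`, satisfy a linear relation with positive coefficients, then there are positive
`y_i` with sum `1` and `n ∑_{i ∈ I} V_i y_i / (1 - y_i) ≤ V_1 + ... + V_N`; in particular
`n |I| min_{i ∈ I} V_i ≤ (|I| - 1) (V_1 + ... + V_N)`.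
-/

set_option autoImplicit false

open Pool.Agent.LogMinkowski

namespace Pool.Agent.Results.MP_36b0a5_gt.SharpDependentBound

/-- Let `n ≥ 2` and let the data `(V; u)` be realised by some polytope.  If `I` is a nonempty set
of indices and `∑_{i ∈ I} l_i u_i = 0` with all `l_i > 0`, then

* there are `y_i ∈ (0, 1)`, `i ∈ I`, with `∑_{i ∈ I} y_i = 1` and
  `n * ∑_{i ∈ I} V_i * (y_i / (1 - y_i)) ≤ V_1 + ... + V_N`;
* some `i ∈ I` satisfies `n * |I| * V_i ≤ (|I| - 1) * (V_1 + ... + V_N)`. -/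
theorem result {n : ℕ} (hn : 2 ≤ n) {N : ℕ} (u : Fin N → E n) (V : Fin N → ℝ)
    (hreal : ∃ P : Set (E n), Realises u V P) (I : Finset (Fin N)) (hI : I.Nonempty)
    (l : Fin N → ℝ) (hl : ∀ i ∈ I, 0 < l i) (hsum : ∑ i ∈ I, l i • u i = 0) :
    (∃ y : Fin N → ℝ, (∀ i ∈ I, 0 < y i ∧ y i < 1) ∧ ∑ i ∈ I, y i = 1 ∧
      (n : ℝ) * ∑ i ∈ I, V i * (y i / (1 - y i)) ≤ ∑ j, V j) ∧
    ∃ i ∈ I, (n : ℝ) * I.card * V i ≤ ((I.card : ℝ) - 1) * ∑ j, V j := by
  obtain ⟨P, hP⟩ := hreal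
  exact ⟨sharp hn hP hI hl hsum, sharp_min hn hP hI hl hsum⟩

end Pool.Agent.Results.MP_36b0a5_gt.SharpDependentBound
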